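import Pool.Agent.N110.CC.GStm

/-!
Pull back of base point free divisors by automorphisms (helper265, project CC of helper110).
-/

set_option autoImplicit false

open FF Pool.Agent.W602.GT Pool.Agent.Y172 Pool.Agent.R887
open Pool.Agent.N110 Pool.Agent.N110.PA Pool.Agent.N110.NV Pool.Agent.N492.PA

namespace Pool.Agent.N265.CC

open Pool.Agent.N110.CC

theorem comap_inj {K : Type} [Field K] [Algebra ℂ K] (φ : K ≃ₐ[ℂ] K) :
    Function.Injective (comap φ) := by
  intro P P' h
  apply Place.ext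
  funext g
  have h1 := congrArg (fun Q : Place ℂ K => Q.ord (φ.symm g)) h
  simp only [comap_ord, AlgEquiv.apply_symm_apply] at h1
  exact h1

theorem divisorial_comap {K : Type} [Field K] [Algebra ℂ K] (φ : K ≃ₐ[ℂ] K) {n : ℕ}
    {R : Place ℂ K} (hR : Divisorial n R) : Divisorial n (comap φ R) := by
  obtain ⟨u, hu⟩ := hR
  refine ⟨fun i => φ.symm (u i), fun F hF => ?_⟩
  have h1 : MvPolynomial.aeval (fun i => φ.symm (u i)) F = φ.symm (MvPolynomial.aeval u F) :=
    (MvPolynomial.comp_aeval_apply (f := u) (φ.symm : K →ₐ[ℂ] K) F).symm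
  obtain ⟨h2, h3⟩ := hu F hF
  rw [h1]
  refine ⟨?_, ?_⟩
  · rw [Ne, map_eq_zero]
    exact h2
  · rw [comap_ord, AlgEquiv.apply_symm_apply]
    exact h3

theorem leafFREE : S_FREE := by
  intro K _ _ N n y _ φ haut
  have hps : PseudoAut φ y := by
    intro P Q hPQ
    have hreg : ∀ g, P.Reg g ↔ Q.Reg (φ g) := by
      intro g
      unfold Place.Reg
      rw [hPQ, map_eq_zero]
    constructor
    · intro hP f hf
      have h1 := (haut P Q hPQ (φ.symm f)).1
        (hP _ ((hreg _).2 (by rwa [AlgEquiv.apply_symm_apply])))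
      rwa [AlgEquiv.apply_symm_apply] at h1
    · intro hQ f hf
      exact (haut P Q hPQ f).2 (hQ _ ((hreg f).1 hf))
  refine ⟨hps, fun D hD => ⟨?_, fun R hR => ?_⟩⟩
  · refine (hD.1.preimage (f := comap φ) (comap_inj φ).injOn).subset ?_
    rintro P ⟨hP, h0⟩
    exact ⟨(hps _ _ fun _ => rfl).2 hP, h0⟩
  · obtain ⟨f, hf0, hf1, hf2⟩ := hD.2 (comap φ R) (divisorial_comap φ hR)
    refine ⟨φ f, by rwa [Ne, map_eq_zero], fun Q hQ => ?_, fun P hP hthr => ?_⟩
    · exact hf1 (comap φ Q) ((hps _ _ fun _ => rfl).2 hQ)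
    · refine hf2 (comap φ P) ((hps _ _ fun _ => rfl).2 hP) fun g hg => ?_
      rw [comap_reg]
      exact hthr _ ((haut (comap φ R) R (fun _ => rfl) g).1 hg)

end Pool.Agent.N265.CC
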